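import Pool.Agent.Helper57.ZF.Goals

/-!
Project ZF (MP_ef0af8_co), packet RAD: the radii.
-/

namespace Pool.Agent.Helper3.ZF

open Pool.Agent.Helper57.ZF

theorem RAD : G_RAD := by
  intro M _ P t ht htP
  have key : ∀ p ∈ P, ∃ r : ℝ, 0 < r ∧ t ≤ cnt P (fun x => dist x p ≤ r) ∧
      cnt P (fun x => dist x p < r) < t := by
    intro p hp
    classical
    let D : Finset ℝ := (P.image (fun x => dist x p)).filter
      (fun d => t ≤ cnt P (fun x => dist x p ≤ d))
    have hmemD : ∀ d, d ∈ D ↔ (∃ x ∈ P, dist x p = d) ∧ t ≤ cnt P (fun x => dist x p ≤ d) := by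
      intro d
      simp only [D, Finset.mem_filter, Finset.mem_image]
    have hne : D.Nonempty := by
      obtain ⟨x0, hx0, hmax⟩ := Finset.exists_max_image P (fun x => dist x p) ⟨p, hp⟩
      refine ⟨dist x0 p, (hmemD _).2 ⟨⟨x0, hx0, rfl⟩, ?_⟩⟩
      rw [cnt_eq, Finset.filter_true_of_mem fun x hx => hmax x hx]
      exact htP
    have hm := (hmemD _).1 (D.min'_mem hne)
    refine ⟨D.min' hne, ?_, hm.2, ?_⟩
    · obtain ⟨x, hx, hxm⟩ := hm.1
      rcases (dist_nonneg (x := x) (y := p)).lt_or_eq with h | h
      · rw [hxm] at h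
        exact h
      · exfalso
        rw [hxm] at h
        have h2 := hm.2
        rw [← h, cnt_eq] at h2
        have h3 : (P.filter fun x => dist x p ≤ 0).card ≤ 1 := by
          refine Finset.card_le_one.2 fun a ha b hb => ?_
          rw [Finset.mem_filter] at ha hb
          have ha' : a = p := dist_eq_zero.1 (le_antisymm ha.2 dist_nonneg)
          have hb' : b = p := dist_eq_zero.1 (le_antisymm hb.2 dist_nonneg)
          rw [ha', hb']
        omega
    · by_contra hcon
      push Not at hcon
      rw [cnt_eq] at hcon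
      have hSne : (P.filter fun x => dist x p < D.min' hne).Nonempty := by
        rw [← Finset.card_pos]
        omega
      obtain ⟨x1, hx1, hmax⟩ := Finset.exists_max_image _ (fun x => dist x p) hSne
      rw [Finset.mem_filter] at hx1
      have hD : dist x1 p ∈ D := by
        refine (hmemD _).2 ⟨⟨x1, hx1.1, rfl⟩, hcon.trans ?_⟩
        rw [cnt_eq]
        refine Finset.card_le_card fun x hx => ?_
        have hx' := Finset.mem_filter.1 hx
        exact Finset.mem_filter.2 ⟨hx'.1, hmax x hx⟩
      exact absurd (D.min'_le _ hD) (not_le.2 hx1.2)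
  choose! rad hrad using key
  exact ⟨rad, hrad⟩

end Pool.Agent.Helper3.ZF
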